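import Pool.Agent.Y211.PY.Main
import Pool.Agent.Y79.PY.HartVal
import Pool.Agent.Y448.PY.Rat

set_option autoImplicit false

/-!
MP_d2168f_ag, Q1: for every formally real field `K` and every nonsingular `K`-rational affine
surface `X` over `K`, the ring of regular functions `O(X)` and the function field `K(X)` have the
same Pythagoras number.
-/

universe u

namespace Pool.Agent.Results.MP_d2168f_ag.RationalSurface

open MvPolynomial

section Defs

variable {K : Type u} [Field K] {n : ℕ}

/-- The set `X(K)` of the `K`-points of the affine variety `X` with ideal `I`. -/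
def Points (I : Ideal (MvPolynomial (Fin n) K)) : Set (Fin n → K) :=
  {x | ∀ f ∈ I, eval x f = 0}

/-- The coordinate ring `K[X]`. -/
abbrev CoordRing (I : Ideal (MvPolynomial (Fin n) K)) : Type u :=
  MvPolynomial (Fin n) K ⧸ I

/-- The function field `K(X)` (for a prime ideal `I`): the fraction field of `K[X]`. -/
abbrev FunctionField (I : Ideal (MvPolynomial (Fin n) K)) : Type u :=
  FractionRing (CoordRing I)

/-- The value of a polynomial function at a `K`-point. -/
noncomputable def valueAt (I : Ideal (MvPolynomial (Fin n) K)) (x : Points I) :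
    CoordRing I →+* K :=
  Ideal.Quotient.lift I (eval x.1) x.2

/-- The multiplicative set `S` of the polynomial functions without zero in `X(K)`. -/
def nowhereZero (I : Ideal (MvPolynomial (Fin n) K)) : Submonoid (CoordRing I) where
  carrier := {g | ∀ x : Points I, valueAt I x g ≠ 0}
  one_mem' := fun x => by simp
  mul_mem' := fun ha hb x => by rw [map_mul]; exact mul_ne_zero (ha x) (hb x)

/-- The ring of regular functions `O(X)`, the localisation of `K[X]` at `S`. -/
abbrev RegularFunctions (I : Ideal (MvPolynomial (Fin n) K)) : Type u :=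
  Localization (nowhereZero I)

/-- The maximal ideal of `K[X]` of a `K`-point is prime. -/
theorem ker_valueAt_isPrime (I : Ideal (MvPolynomial (Fin n) K)) (x : Points I) :
    (RingHom.ker (valueAt I x)).IsPrime := RingHom.ker_isPrime _

/-- The local ring of `X` at a `K`-point. -/
abbrev LocalRingAt (I : Ideal (MvPolynomial (Fin n) K)) (x : Points I) : Type u :=
  haveI := ker_valueAt_isPrime I x
  Localization.AtPrime (RingHom.ker (valueAt I x))

/-- `X` is a nonsingular surface: its local rings at all `K`-points are regular local rings of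
Krull dimension two. -/
def IsNonsingularSurface (I : Ideal (MvPolynomial (Fin n) K)) : Prop :=
  ∀ x : Points I, IsRegularLocalRing (LocalRingAt I x) ∧ ringKrullDim (LocalRingAt I x) = 2

/-- `X` is `K`-rational: birational over `K` to the affine plane. -/
def IsRationalSurface (I : Ideal (MvPolynomial (Fin n) K)) : Prop :=
  Nonempty (FunctionField I ≃ₐ[K] FractionRing (MvPolynomial (Fin 2) K))

end Defs

/-- `a` is a sum of `m` squares in `A`. -/
def IsSumOfSquares (A : Type u) [CommRing A] (m : ℕ) (a : A) : Prop :=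
  ∃ x : Fin m → A, a = ∑ i, x i ^ 2

/-- The Pythagoras number of `A`: the least `m ≥ 1` such that every finite sum of squares in `A`
is a sum of `m` squares in `A`, and `⊤` if there is no such `m`. -/
noncomputable def pythagorasNumber (A : Type u) [CommRing A] : ℕ∞ :=
  sInf {N : ℕ∞ | ∃ m : ℕ, 1 ≤ m ∧ N = m ∧
    ∀ a : A, (∃ k : ℕ, IsSumOfSquares A k a) → IsSumOfSquares A m a}

section Aux

theorem IsSumOfSquares.map {A B : Type u} [CommRing A] [CommRing B] (e : A →+* B) {m : ℕ} {a : A}
    (h : IsSumOfSquares A m a) : IsSumOfSquares B m (e a) := by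
  obtain ⟨x, hx⟩ := h
  exact ⟨fun i => e (x i), by rw [hx]; simp⟩

theorem IsSumOfSquares.mono {A : Type u} [CommRing A] {m m' : ℕ} (hm : m ≤ m') {a : A}
    (h : IsSumOfSquares A m a) : IsSumOfSquares A m' a := by
  obtain ⟨d, rfl⟩ := Nat.exists_eq_add_of_le hm
  obtain ⟨x, hx⟩ := h
  refine ⟨Fin.append x 0, ?_⟩
  rw [Fin.sum_univ_add]
  simp [hx]

/-- every sum of squares is a sum of `m` squares -/
def AllSums (A : Type u) [CommRing A] (m : ℕ) : Prop :=
  ∀ a : A, (∃ k : ℕ, IsSumOfSquares A k a) → IsSumOfSquares A m a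

theorem AllSums.equiv {A B : Type u} [CommRing A] [CommRing B] (e : A ≃+* B) {m : ℕ}
    (h : AllSums A m) : AllSums B m := by
  rintro b ⟨k, hk⟩
  have h1 := h (e.symm b) ⟨k, hk.map e.symm.toRingHom⟩
  have h2 := h1.map e.toRingHom
  simpa using h2

theorem AllSums.frac {O : Type u} [CommRing O] [IsDomain O] {m : ℕ} (h : AllSums O m) :
    AllSums (FractionRing O) m := by
  rintro a ⟨k, x, hx⟩
  obtain ⟨b, hb⟩ := IsLocalization.exist_integer_multiples_of_finite (nonZeroDivisors O) x
  choose y hy using hb
  set d : FractionRing O := algebraMap O (FractionRing O) b with hd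
  have hd0 : d ≠ 0 := by
    rw [hd]
    simpa using nonZeroDivisors.ne_zero b.2
  have hy' : ∀ i, algebraMap O (FractionRing O) (y i) = d * x i := by
    intro i
    rw [hy i, Algebra.smul_def]
  obtain ⟨z, hz⟩ := h (∑ i, y i ^ 2) ⟨k, y, rfl⟩
  have h1 : d ^ 2 * a = ∑ i, (algebraMap O (FractionRing O) (z i)) ^ 2 := by
    rw [hx, Finset.mul_sum]
    have := congrArg (algebraMap O (FractionRing O)) hz
    simp only [map_sum, map_pow, hy'] at this
    rw [← this]
    exact Finset.sum_congr rfl fun i _ => by ring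
  refine ⟨fun i => algebraMap O (FractionRing O) (z i) / d, ?_⟩
  simp only [div_pow]
  rw [← Finset.sum_div, ← h1]
  field_simp

variable {K : Type u} [Field K] {n : ℕ} (I : Ideal (MvPolynomial (Fin n) K))

theorem exists_algHom (x : Points I) :
    ∃ φ : CoordRing I →ₐ[K] K, ∀ g, φ g = valueAt I x g := by
  refine ⟨Ideal.Quotient.liftₐ I (aeval x.1) (fun f hf => ?_), fun g => ?_⟩
  · have := x.2 f hf
    rwa [← MvPolynomial.coe_aeval_eq_eval] at this
  · obtain ⟨f, rfl⟩ := Ideal.Quotient.mk_surjective g
    rw [valueAt, Ideal.Quotient.lift_mk]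
    change aeval x.1 f = _
    rw [← MvPolynomial.coe_aeval_eq_eval]; rfl

theorem exists_point (φ : CoordRing I →ₐ[K] K) :
    ∃ x : Points I, ∀ g, valueAt I x g = φ g := by
  have key : ∀ f : MvPolynomial (Fin n) K,
      eval (fun i => φ (Ideal.Quotient.mk I (X i))) f = φ (Ideal.Quotient.mk I f) := by
    intro f
    have h1 : (aeval (fun i => φ (Ideal.Quotient.mk I (X i))) : MvPolynomial (Fin n) K →ₐ[K] K)
        = φ.comp (Ideal.Quotient.mkₐ K I) := by
      apply MvPolynomial.algHom_ext
      intro i
      simp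
    have h2 := congrArg (fun ψ : MvPolynomial (Fin n) K →ₐ[K] K => ψ f) h1
    rw [← MvPolynomial.coe_aeval_eq_eval]
    exact h2
  refine ⟨⟨fun i => φ (Ideal.Quotient.mk I (X i)), fun f hf => ?_⟩, fun g => ?_⟩
  · rw [key, Ideal.Quotient.eq_zero_iff_mem.2 hf, map_zero]
  · obtain ⟨f, rfl⟩ := Ideal.Quotient.mk_surjective g
    rw [valueAt, Ideal.Quotient.lift_mk]
    exact key f

theorem nowhereZero_eq : nowhereZero I = Pool.Agent.Y211.PY.nonvan K (CoordRing I) := by
  ext g
  constructor
  · intro h φ
    obtain ⟨x, hx⟩ := exists_point I φ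
    rw [← hx]; exact h x
  · intro h x
    obtain ⟨φ, hφ⟩ := exists_algHom I x
    rw [← hφ]; exact h φ

theorem regPts (h : IsNonsingularSurface I) : Pool.Agent.Y211.PY.RegPts K (CoordRing I) := by
  rintro m hm ⟨φ, rfl⟩
  obtain ⟨x, hx⟩ := exists_point I φ
  have hker : RingHom.ker φ = RingHom.ker (valueAt I x) := by
    ext g
    rw [RingHom.mem_ker, RingHom.mem_ker, hx]
  have h1 := h x
  unfold LocalRingAt at h1
  revert hm
  rw [hker]
  intro hm
  exact h1

end Aux

/-- **Main theorem.** For every formally real field `K` and every nonsingular `K`-rational affine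
surface `X` over `K`, the ring of regular functions and the function field of `X` have the same
Pythagoras number. -/
theorem result (K : Type u) [Field K] (hK : ¬ IsSumSq (-1 : K)) (n : ℕ)
    (I : Ideal (MvPolynomial (Fin n) K)) [I.IsPrime]
    (hns : IsNonsingularSurface I) (hrat : IsRationalSurface I) :
    pythagorasNumber (RegularFunctions I) = pythagorasNumber (FunctionField I) := by
  have hchar : CharZero K := Pool.Agent.Y839.PY.charZero hK
  have hinf : Infinite K := inferInstance
  have hfin : Algebra.FiniteType K (CoordRing I) := inferInstance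
  obtain ⟨e⟩ := hrat
  have hpt : Nonempty (CoordRing I →ₐ[K] K) := Pool.Agent.Y448.PY.t K (CoordRing I) ⟨e⟩
  have hreg := regPts I hns
  obtain ⟨hdom, -, -, -, -, ⟨eF⟩⟩ := Pool.Agent.Y484.PY.OX.t K (CoordRing I) hK hreg hpt
  have htr : ∀ h : Fin 3 → FractionRing (CoordRing I), ¬ AlgebraicIndependent K h := by
    intro h hh
    exact Pool.Agent.Y448.PY.tT K (e ∘ h) (hh.map' (f := e.toAlgHom) e.injective)
  have hEq : pythagorasNumber (RegularFunctions I) =
      pythagorasNumber (Pool.Agent.Y211.PY.RegFun K (CoordRing I)) := by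
    unfold RegularFunctions Pool.Agent.Y211.PY.RegFun
    rw [nowhereZero_eq]
  rw [hEq]
  unfold pythagorasNumber
  congr 1
  ext N
  constructor
  · rintro ⟨m, hm, rfl, h⟩
    refine ⟨m, hm, rfl, ?_⟩
    have h1 : AllSums (Pool.Agent.Y211.PY.RegFun K (CoordRing I)) m := h
    exact AllSums.equiv eF.toRingEquiv h1.frac
  · rintro ⟨m, hm, rfl, h⟩
    refine ⟨m, hm, rfl, ?_⟩
    have h1 : AllSums (FunctionField I) m := h
    have h2 : AllSums (FractionRing (MvPolynomial (Fin 2) K)) m := h1.equiv e.toRingEquiv
    have h3 : AllSums (FractionRing (Pool.Agent.Y211.PY.RegFun K (CoordRing I))) m :=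
      h1.equiv eF.symm.toRingEquiv
    -- m is at least three
    have hm3 : 3 ≤ m := by
      by_contra hlt
      have hm2 : m ≤ 2 := by omega
      apply Pool.Agent.Y839.PY.t K hK
      have h4 := h2 (1 + algebraMap (MvPolynomial (Fin 2) K)
          (FractionRing (MvPolynomial (Fin 2) K)) (MvPolynomial.X 0) ^ 2
        + algebraMap (MvPolynomial (Fin 2) K)
          (FractionRing (MvPolynomial (Fin 2) K)) (MvPolynomial.X 1) ^ 2)
        ⟨3, ![1, algebraMap (MvPolynomial (Fin 2) K)
          (FractionRing (MvPolynomial (Fin 2) K)) (MvPolynomial.X 0),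
          algebraMap (MvPolynomial (Fin 2) K)
          (FractionRing (MvPolynomial (Fin 2) K)) (MvPolynomial.X 1)], by
            simp [Fin.sum_univ_succ]; ring⟩
      obtain ⟨x, hx⟩ := h4.mono hm2
      refine ⟨x 0, x 1, ?_⟩
      rw [hx]; simp [Fin.sum_univ_succ]
    rintro f ⟨k, hk⟩
    obtain ⟨v, hv⟩ := h3 _ ⟨k, hk.map (algebraMap _ (FractionRing _))⟩
    exact Pool.Agent.Y211.PY.descend (Pool.Agent.Y79.PY.tH Pool.Agent.Y211.PY.t_LOC)
      (Pool.Agent.Y79.PY.tV Pool.Agent.Y211.PY.t_LOC) K (CoordRing I) hK hreg hpt htr m hm3 f v hv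

end Pool.Agent.Results.MP_d2168f_ag.RationalSurface
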